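import Mathlib

/-!
# The weak diamond of Devlin and Shelah at well-orders

`W` is a well-order whose proper initial segments embed in the infinite type `K`, such that the
intersection of clubs indexed by `K` is a club. If `W → Bool` does not embed in `K → Bool` then
the weak diamond principle holds on `W`, for functions `W → V` where `V` embeds in `K → Bool`.
-/

set_option autoImplicit false

open Set Function

namespace Pool.Agent.Y128.WD

universe w

section Club

variable {W : Type w} [LinearOrder W] [WellFoundedLT W]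

attribute [local instance]
  WellFoundedLT.toOrderBot WellFoundedLT.conditionallyCompleteLinearOrderBot

theorem exists_isLUB_range [Nonempty W] (hcof : Cardinal.aleph0 < Order.cof W) (η : ℕ → W) :
    ∃ δ, IsLUB (Set.range η) δ := by
  have hb : BddAbove (Set.range η) := by
    refine .of_not_isCofinal fun h => (Order.cof_le h).not_gt (hcof.trans_le' ?_)
    simpa using Cardinal.mk_range_le_lift (f := η)
  exact ⟨_, isLUB_csSup (Set.range_nonempty η) hb⟩

/-- the least element of `E` above `δ` -/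
noncomputable def nxt (E : Set W) (δ : W) : W :=
  open Classical in
  if h : {x | x ∈ E ∧ δ < x}.Nonempty then wellFounded_lt.min {x | x ∈ E ∧ δ < x} h else δ

variable [NoMaxOrder W]

omit [WellFoundedLT W] in
theorem exists_gt_mem {E : Set W} (hE : IsClub E) (δ : W) : {x | x ∈ E ∧ δ < x}.Nonempty := by
  obtain ⟨γ, hγ⟩ := exists_gt δ
  obtain ⟨x, hx, hle⟩ := hE.isCofinal γ
  exact ⟨x, hx, hγ.trans_le hle⟩

theorem nxt_mem {E : Set W} (hE : IsClub E) (δ : W) : nxt E δ ∈ E := by
  unfold nxt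
  rw [dif_pos (exists_gt_mem hE δ)]
  exact (wellFounded_lt.min_mem _ (exists_gt_mem hE δ)).1

theorem lt_nxt {E : Set W} (hE : IsClub E) (δ : W) : δ < nxt E δ := by
  unfold nxt
  rw [dif_pos (exists_gt_mem hE δ)]
  exact (wellFounded_lt.min_mem _ (exists_gt_mem hE δ)).2

theorem nxt_le {E : Set W} (hE : IsClub E) (δ : W) {x : W} (hx : x ∈ E) (h : δ < x) :
    nxt E δ ≤ x := by
  unfold nxt
  rw [dif_pos (exists_gt_mem hE δ)]
  exact not_lt.1 (wellFounded_lt.not_lt_min (s := {x | x ∈ E ∧ δ < x}) (And.intro hx h))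

end Club

section Code

variable {W : Type w} [LinearOrder W] {K : Type} {V : Type}

/-- the restriction of a function on `W` to the elements below `η`, as a function on `K` -/
noncomputable def squeeze (e : ∀ δ : W, {β : W // β < δ} ↪ K) {A : Type} (a0 : A) (η : W)
    (f : W → A) (k : K) : A :=
  open Classical in
  if h : ∃ β : {β : W // β < η}, e η β = k then f h.choose.1 else a0

theorem squeeze_spec (e : ∀ δ : W, {β : W // β < δ} ↪ K) {A : Type} (a0 : A) (η : W)
    (f : W → A) (β : {β : W // β < η}) : squeeze e a0 η f (e η β) = f β.1 := by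
  have h : ∃ β' : {β : W // β < η}, e η β' = e η β := ⟨β, rfl⟩
  unfold squeeze
  rw [dif_pos h]
  rw [(e η).injective h.choose_spec]

theorem eq_of_squeeze (e : ∀ δ : W, {β : W // β < δ} ↪ K) {A : Type} (a0 : A) (η : W)
    {f f' : W → A} (h : squeeze e a0 η f = squeeze e a0 η f') {β : W} (hβ : β < η) :
    f β = f' β := by
  rw [← squeeze_spec e a0 η f ⟨β, hβ⟩, ← squeeze_spec e a0 η f' ⟨β, hβ⟩, h]

end Code

/-- the cardinality of the type of codes -/
theorem exists_embedding (K : Type) [Infinite K] :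
    Nonempty (((K → Bool) × (ℕ → K → K → (K → Bool)) × (K → K → Bool)) ↪ (K → Bool)) := by
  rw [← Cardinal.le_def]
  have hK : Cardinal.aleph0.{0} ≤ Cardinal.mk K := Cardinal.aleph0_le_mk K
  obtain ⟨κ, hκ⟩ : ∃ κ : Cardinal.{0}, κ = Cardinal.mk K := ⟨_, rfl⟩
  have hK' : Cardinal.aleph0.{0} ≤ κ := by rw [hκ]; exact hK
  have hB : Cardinal.mk (K → Bool) = 2 ^ κ := by simp [hκ]
  have hKK : ((2 : Cardinal.{0}) ^ κ) ^ κ = 2 ^ κ := by
    rw [← Cardinal.power_mul, Cardinal.mul_eq_self hK']
  have hKN : ((2 : Cardinal.{0}) ^ κ) ^ Cardinal.aleph0.{0} = 2 ^ κ := by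
    rw [← Cardinal.power_mul, Cardinal.mul_eq_left hK' hK' Cardinal.aleph0_ne_zero]
  have h1 : Cardinal.mk (K → K → Bool) = 2 ^ κ := by
    rw [Cardinal.mk_pi, Cardinal.prod_const', hB, ← hκ, hKK]
  have h3 : Cardinal.mk (ℕ → K → K → (K → Bool)) = 2 ^ κ := by
    rw [Cardinal.mk_pi, Cardinal.prod_const', Cardinal.mk_pi, Cardinal.prod_const',
      Cardinal.mk_pi, Cardinal.prod_const', hB, ← hκ, hKK, hKK, Cardinal.mk_nat, hKN]
  rw [Cardinal.mk_prod, Cardinal.mk_prod, Cardinal.lift_id, Cardinal.lift_id, Cardinal.lift_id,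
    Cardinal.lift_id, h1, h3, hB]
  have h4 : Cardinal.aleph0.{0} ≤ 2 ^ κ := hK'.trans (Cardinal.cantor _).le
  rw [Cardinal.mul_eq_self h4, Cardinal.mul_eq_self h4]

section Main

variable {W : Type w} {K V : Type}

/-- One step of the construction: a family of functions `G` and a club `E`. -/
structure St (W : Type w) (K : Type) where
  G : W → K → Bool
  E : Set W

/-- the sequence of functions and clubs -/
noncomputable def seq [LinearOrder W] [WellFoundedLT W] (wh : (W → Bool) → W → V)
    (wE : (W → Bool) → Set W)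
    (code : W → (K → W → V) → (W → K → Bool) → (K → Bool)) (g : W → Bool) : ℕ → St W K
  | 0 => ⟨fun δ _ => g δ, ⋂ _ : K, wE g⟩
  | n + 1 =>
    let s := seq wh wE code g n
    let G' : W → K → Bool := fun δ => code (nxt s.E δ) (fun i => wh (fun β => s.G β i)) s.G
    ⟨G', s.E ∩ ⋂ i : K, wE (fun δ => G' δ i)⟩

/-- **The weak diamond of Devlin and Shelah.** -/
theorem weak_diamond [LinearOrder W] [WellFoundedLT W] [NoMaxOrder W] [Nonempty W] [Infinite K]
    (hcof : Cardinal.aleph0 < Order.cof W)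
    (hK : ∀ f : K → Set W, (∀ i, IsClub (f i)) → IsClub (⋂ i, f i))
    (e : ∀ δ : W, {β : W // β < δ} ↪ K) (a : W ↪ (K → Bool)) (v : V ↪ (K → Bool))
    (hbig : IsEmpty ((W → Bool) ↪ (K → Bool)))
    (F : W → (W → V) → Bool)
    (hF : ∀ (δ : W) (h h' : W → V), (∀ x, x < δ → h x = h' x) → F δ h = F δ h') :
    ∃ g : W → Bool, ∀ (h : W → V) (E : Set W), IsClub E → ∃ δ ∈ E, F δ h ≠ g δ := by
  by_contra hcon
  push Not at hcon
  choose wh wE hclub hwE using hcon
  obtain ⟨J⟩ := exists_embedding K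
  let z : K → Bool := fun _ => false
  let code : W → (K → W → V) → (W → K → Bool) → (K → Bool) := fun η H G =>
    J (a η, fun _ i k => squeeze e z η (fun β => v (H i β)) k, fun k => squeeze e z η G k)
  have hcode : ∀ (η η' : W) (H H' : K → W → V) (G G' : W → K → Bool),
      code η H G = code η' H' G' →
        η = η' ∧ (∀ i x, x < η → H i x = H' i x) ∧ (∀ β, β < η → G β = G' β) := by
    intro η η' H H' G G' h
    have h1 := J.injective h
    have h2 := Prod.ext_iff.1 h1
    obtain rfl : η = η' := a.injective h2.1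
    have h3 := Prod.ext_iff.1 h2.2
    refine ⟨rfl, fun i x hx => ?_, fun β hβ => ?_⟩
    · have h4 : squeeze e z η (fun β => v (H i β)) = squeeze e z η (fun β => v (H' i β)) :=
        congrFun (congrFun h3.1 0) i
      have h5 : (fun β => v (H i β)) x = (fun β => v (H' i β)) x := eq_of_squeeze e z η h4 hx
      exact v.injective h5
    · exact eq_of_squeeze e z η h3.2 hβ
  let S : (W → Bool) → ℕ → St W K := seq wh wE code
  let H : (W → Bool) → ℕ → K → W → V := fun g n i => wh (fun β => (S g n).G β i)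
  -- basic facts
  have hE_sub : ∀ g n, (S g n).E ⊆ ⋂ i : K, wE (fun δ => (S g n).G δ i) := by
    intro g n
    cases n with
    | zero => exact fun x hx => hx
    | succ n => exact fun x hx => hx.2
  have hE_club : ∀ g n, IsClub (S g n).E := by
    intro g n
    induction n with
    | zero => exact hK _ (fun _ => hclub _)
    | succ n ih => exact ih.inter hcof.ne' (hK _ (fun _ => hclub _))
  have hE_anti1 : ∀ g n, (S g (n + 1)).E ⊆ (S g n).E := by
    intro g n x hx
    exact hx.1
  have hE_anti : ∀ g m n, m ≤ n → (S g n).E ⊆ (S g m).E := by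
    intro g m n hmn
    induction hmn with
    | refl => exact fun x hx => hx
    | step _ ih => exact fun x hx => ih (hE_anti1 g _ hx)
  have hFH : ∀ g n δ, δ ∈ (S g n).E → ∀ i, F δ (H g n i) = (S g n).G δ i := by
    intro g n δ hδ i
    have := hE_sub g n hδ
    rw [Set.mem_iInter] at this
    exact hwE _ δ (this i)
  have hGsucc : ∀ g n δ, (S g (n + 1)).G δ = code (nxt (S g n).E δ) (H g n) (S g n).G := by
    intro g n δ
    rfl
  have hG0 : ∀ g δ i, (S g 0).G δ i = g δ := by
    intro g δ i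
    rfl
  let C : (W → Bool) → Set W := fun g => ⋂ n, (S g n).E
  have hC : ∀ g, IsClub (C g) := fun g => IsClub.iInter_of_countable hcof.ne' (hE_club g)
  -- decoding
  have hdec : ∀ g g' n δ, δ ∈ (S g (n + 1)).E → δ ∈ (S g' (n + 1)).E →
      (∀ i x, x < δ → H g (n + 1) i x = H g' (n + 1) i x) →
      nxt (S g n).E δ = nxt (S g' n).E δ ∧
      (∀ i x, x < (nxt (S g n).E δ) → H g n i x = H g' n i x) ∧
      (∀ β, β < nxt (S g n).E δ → (S g n).G β = (S g' n).G β) := by
    intro g g' n δ h1 h2 h3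
    have e : (S g (n + 1)).G δ = (S g' (n + 1)).G δ := by
      funext i
      rw [← hFH g (n + 1) δ h1 i, ← hFH g' (n + 1) δ h2 i]
      exact hF δ _ _ (h3 i)
    rw [hGsucc, hGsucc] at e
    exact hcode _ _ _ _ _ _ e
  let Z : (W → Bool) → (W → Bool) → Set W := fun g g' =>
    {δ | δ ∈ C g ∧ δ ∈ C g' ∧ ∀ n i x, x < δ → H g n i x = H g' n i x}
  have hstep : ∀ g g' δ, δ ∈ Z g g' → ∃ δ' ∈ Z g g', δ < δ' := by
    intro g g' δ hδ
    obtain ⟨hδ1, hδ2, hδ3⟩ := hδ
    have hm1 : ∀ n, δ ∈ (S g n).E := fun n => Set.mem_iInter.1 hδ1 n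
    have hm2 : ∀ n, δ ∈ (S g' n).E := fun n => Set.mem_iInter.1 hδ2 n
    let η : ℕ → W := fun n => nxt (S g n).E δ
    have hη' : ∀ n, η n = nxt (S g' n).E δ := fun n =>
      (hdec g g' n δ (hm1 _) (hm2 _) (hδ3 (n + 1))).1
    have hηE : ∀ n, η n ∈ (S g n).E := fun n => nxt_mem (hE_club g n) δ
    have hηE' : ∀ n, η n ∈ (S g' n).E := fun n => by
      rw [hη' n]; exact nxt_mem (hE_club g' n) δ
    have hηmono : Monotone η := by
      apply monotone_nat_of_le_succ
      intro n
      exact nxt_le (hE_club g n) δ (hE_anti1 g n (hηE (n + 1))) (lt_nxt (hE_club g (n + 1)) δ)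
    have hagree : ∀ k n i x, x < η (n + k) → H g n i x = H g' n i x := by
      intro k
      induction k with
      | zero =>
        intro n
        exact (hdec g g' n δ (hm1 _) (hm2 _) (hδ3 (n + 1))).2.1
      | succ k ih =>
        intro n i x hx
        have e : n + (k + 1) = n + 1 + k := by omega
        rw [e] at hx
        have hd := hdec g g' n (η (n + 1 + k))
          (hE_anti g (n + 1) (n + 1 + k) (by omega) (hηE _))
          (hE_anti g' (n + 1) (n + 1 + k) (by omega) (hηE' _))
          (fun i x hx => ih (n + 1) i x hx)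
        refine hd.2.1 i x (hx.trans ?_)
        exact lt_nxt (hE_club g n) (η (n + 1 + k))
    -- the supremum
    obtain ⟨δ', hδ'⟩ := exists_isLUB_range hcof η
    have hle : ∀ n, η n ≤ δ' := fun n => hδ'.1 ⟨n, rfl⟩
    have hlub : ∀ m, IsLUB (η '' Set.Ici m) δ' := by
      intro m
      constructor
      · rintro _ ⟨n, -, rfl⟩
        exact hle n
      · intro b hb
        apply hδ'.2
        rintro _ ⟨n, rfl⟩
        have h1 : η n ≤ η (max n m) := hηmono (le_max_left _ _)
        have h2 : η (max n m) ≤ b := hb ⟨max n m, Set.mem_Ici.2 (le_max_right _ _), rfl⟩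
        exact h1.trans h2
    refine ⟨δ', ⟨?_, ?_, ?_⟩, (lt_nxt (hE_club g 0) δ).trans_le (hle 0)⟩
    · refine Set.mem_iInter.2 (fun m => ?_)
      refine (hE_club g m).isLUB_mem (t := η '' Set.Ici m) ?_ ⟨η m, m, Set.mem_Ici.2 le_rfl, rfl⟩ (hlub m)
      rintro _ ⟨n, hn, rfl⟩
      exact hE_anti g m n hn (hηE n)
    · refine Set.mem_iInter.2 (fun m => ?_)
      refine (hE_club g' m).isLUB_mem (t := η '' Set.Ici m) ?_ ⟨η m, m, Set.mem_Ici.2 le_rfl, rfl⟩ (hlub m)
      rintro _ ⟨n, hn, rfl⟩
      exact hE_anti g' m n hn (hηE' n)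
    · intro n i x hx
      obtain ⟨_, ⟨j, rfl⟩, hj⟩ := (lt_isLUB_iff hδ').1 hx
      refine hagree j n i x (hj.trans_le ?_)
      exact hηmono (by omega)
  have hcofZ : ∀ g g', (Z g g').Nonempty → ∀ β, ∃ δ ∈ Z g g', β ≤ δ := by
    intro g g' hne β
    by_contra hno
    push Not at hno
    -- the least upper bound of Z
    have hub : {b : W | ∀ δ ∈ Z g g', δ ≤ b}.Nonempty := ⟨β, fun δ hδ => (hno δ hδ).le⟩
    let b := wellFounded_lt.min _ hub
    have hb1 : ∀ δ ∈ Z g g', δ ≤ b := wellFounded_lt.min_mem _ hub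
    have hb2 : ∀ c, (∀ δ ∈ Z g g', δ ≤ c) → b ≤ c := fun c hc =>
      not_lt.1 (wellFounded_lt.not_lt_min (s := {b : W | ∀ δ ∈ Z g g', δ ≤ b}) hc)
    have hlub : IsLUB (Z g g') b := ⟨hb1, hb2⟩
    have hbZ : b ∈ Z g g' := by
      refine ⟨(hC g).isLUB_mem (fun x hx => hx.1) hne hlub,
        (hC g').isLUB_mem (fun x hx => hx.2.1) hne hlub, ?_⟩
      intro n i x hx
      have : ¬ (∀ δ ∈ Z g g', δ ≤ x) := fun hc => absurd hx (not_lt.2 (hb2 _ hc))
      push Not at this
      obtain ⟨δ, hδ, hlt⟩ := this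
      exact hδ.2.2 n i x hlt
    obtain ⟨δ', hδ', hlt⟩ := hstep g g' b hbZ
    exact absurd (hb1 δ' hδ') (not_le.2 hlt)
  -- the injection
  let mn : (W → Bool) → W := fun g => wellFounded_lt.min (C g) (hC g).nonempty
  have hmn : ∀ g, mn g ∈ C g := fun g => wellFounded_lt.min_mem _ _
  let Φ : (W → Bool) → (K → Bool) := fun g =>
    J (a (mn g), fun n i k => squeeze e z (mn g) (fun β => v (H g n i β)) k, fun _ _ => false)
  have hinj : Function.Injective Φ := by
    intro g g' h
    have h0 := J.injective h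
    have h1 := Prod.ext_iff.1 h0
    have h1' : mn g = mn g' := a.injective h1.1
    have h2 := Prod.ext_iff.1 h1.2
    have h3 : ∀ n i x, x < mn g → H g n i x = H g' n i x := by
      intro n i x hx
      have h4 : squeeze e z (mn g) (fun β => v (H g n i β)) =
          squeeze e z (mn g') (fun β => v (H g' n i β)) := congrFun (congrFun h2.1 n) i
      rw [← h1'] at h4
      have h5 : (fun β => v (H g n i β)) x = (fun β => v (H g' n i β)) x :=
        eq_of_squeeze e z (mn g) h4 hx
      exact v.injective h5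
    have hne : (Z g g').Nonempty := ⟨mn g, hmn g, by rw [h1']; exact hmn g', h3⟩
    funext β
    obtain ⟨δ, hδ, hβ⟩ := hcofZ g g' hne β
    have hd := hdec g g' 0 δ (Set.mem_iInter.1 hδ.1 1) (Set.mem_iInter.1 hδ.2.1 1) (hδ.2.2 1)
    have := hd.2.2 β (hβ.trans_lt (lt_nxt (hE_club g 0) δ))
    obtain ⟨k0⟩ : Nonempty K := inferInstance
    have h5 := congrFun this k0
    rw [hG0, hG0] at h5
    exact h5
  exact hbig.false ⟨Φ, hinj⟩

end Main

end Pool.Agent.Y128.WD
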