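import Mathlib

/-!
# Weak diamonds and uniformization of colourings along trees: definitions

`κ` is an infinite cardinal and `W κ` is the set of the ordinals below the successor cardinal `κ⁺`;
`W ℵ₀` is the set of the countable ordinals.
-/

set_option autoImplicit false

open Set

namespace Pool.Agent.Y128.WD

/-- the set of the ordinals below `κ⁺` -/
abbrev W (κ : Cardinal.{0}) : Type 1 := Set.Iio (Order.succ κ).ord

/-- The weak diamond principle of Devlin and Shelah for the subset `E` of `κ⁺`: for every type `V` of
at most `2 ^ κ` elements and every function `F` with values `0`, `1` on the set of all functions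
`δ → V`, `δ < κ⁺`, there is `g : κ⁺ → {0, 1}` which guesses `F (h | δ)` correctly for stationarily
many `δ` in `E`, for every `h : κ⁺ → V`. -/
def WeakDiamond (κ : Cardinal.{0}) (E : Set (W κ)) : Prop :=
  ∀ V : Type, Cardinal.mk V ≤ 2 ^ κ → ∀ F : (δ : W κ) → ({β : W κ // β < δ} → V) → Bool,
    ∃ g : W κ → Bool, ∀ h : W κ → V, IsStationary {δ | δ ∈ E ∧ F δ (fun β => h β.1) = g δ}

/-- A tree is a partially ordered set in which the set of predecessors of every node is
well-ordered. -/
class IsTree (T : Type) [PartialOrder T] : Prop where
  wo : ∀ t : T, IsWellOrder (Set.Iio t) (· < ·)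

attribute [instance] IsTree.wo

section Tree

variable {T : Type} [PartialOrder T] [IsTree T]

/-- The height of a node is the order type of its set of predecessors. -/
noncomputable def ht (t : T) : Ordinal.{0} := Ordinal.type (α := Set.Iio t) (· < ·)

/-- `S` is downward closed and contains nodes of arbitrarily large height below `κ⁺`. (A subtree in
the sense of the problem has this property for `κ = ℵ₀`.) -/
structure IsTall (κ : Cardinal.{0}) (S : Set T) : Prop where
  lower : ∀ s ∈ S, ∀ u ≤ s, u ∈ S
  tall : ∀ β : W κ, ∃ t ∈ S, β.1 ≤ ht t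

end Tree

/-- all levels of `T` have at most `κ` nodes -/
def LevelsLE (κ : Cardinal.{0}) (T : Type) [PartialOrder T] [IsTree T] : Prop :=
  ∀ α : Ordinal.{0}, Cardinal.mk {t : T // ht t = α} ≤ κ

/-- `T` has an antichain such that the set of the heights in `E` of its nodes is stationary. -/
def HasStationaryAntichain (κ : Cardinal.{0}) (E : Set (W κ)) (T : Type) [PartialOrder T]
    [IsTree T] : Prop :=
  ∃ A : Set T, IsAntichain (· ≤ ·) A ∧ IsStationary {δ : W κ | δ ∈ E ∧ ∃ a ∈ A, ht a = δ.1}

/-- Let `D` be a rule which assigns a colour `0`, `1` to a node `s` and a function `φ` with values in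
`V` on the predecessors of `s`. `T` is uniformizable for `D` on `E` if for every colouring `g` of
`E` with two colours there are a downward closed set `S` of nodes of arbitrarily large height and a
function `φ` such that for all `δ` in `E` outside a nonstationary set the rule finds the colour
`g δ` from the restriction of `φ` to the predecessors of `s`, for all nodes `s` of `S` of height
`δ`. -/
def Uniformizable (κ : Cardinal.{0}) (E : Set (W κ)) (T : Type) [PartialOrder T] [IsTree T]
    (V : Type) (D : (s : T) → ({u : T // u < s} → V) → Bool) : Prop :=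
  ∀ g : W κ → Bool, ∃ (S : Set T) (φ : T → V), IsTall κ S ∧
    ¬ IsStationary {δ : W κ | δ ∈ E ∧ ∃ s ∈ S, ht s = δ.1 ∧ D s (fun u => φ u.1) ≠ g δ}

/-- The usual uniformization along a tree, modulo filters: `𝓕 δ` is a filter on the ordinals, for
instance that of the sets which contain all but finitely many elements of `C δ`, `C` a ladder system.
For every colouring `g` with two colours there are `S` and `φ` such that for `δ` in `E` and `s` in
`S` of height `δ`, the value of `φ` at the predecessor of `s` of height `ξ` is the colour `g δ`,
coded by the element `c (g δ)` of `V`, for almost all `ξ` with respect to `𝓕 δ`. -/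
def UniformizableMod (κ : Cardinal.{0}) (E : Set (W κ)) (T : Type) [PartialOrder T] [IsTree T]
    (V : Type) (c : Bool → V) (𝓕 : W κ → Filter Ordinal.{0}) : Prop :=
  ∀ g : W κ → Bool, ∃ (S : Set T) (φ : T → V), IsTall κ S ∧
    ¬ IsStationary {δ : W κ | δ ∈ E ∧ ∃ s ∈ S, ht s = δ.1 ∧
      ¬ ∀ᶠ ξ in 𝓕 δ, ∃ u < s, ht u = ξ ∧ φ u = c (g δ)}

/-- the set of the limit ordinals below `κ⁺` -/
def limits (κ : Cardinal.{0}) : Set (W κ) := {δ | Order.IsSuccLimit δ.1}

/-- A ladder system: for every countable limit ordinal `α` the set `C α` is a cofinal subset of `α` of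
order type `ω`. -/
def IsLadderSystem (C : Ordinal.{0} → Set Ordinal.{0}) : Prop :=
  ∀ α < (Order.succ Cardinal.aleph0.{0}).ord, Order.IsSuccLimit α →
    ∃ e : ℕ → Ordinal.{0}, StrictMono e ∧ Set.range e = C α ∧ (∀ n, e n < α) ∧
      ∀ β < α, ∃ n, β < e n

/-- Every monochromatic colouring of the ladder system `C` with the two colours `0`, `1` (that is,
a function `g` on the countable limit ordinals, `g α = true` for the colour `1`) has a
`T`-uniformization `φ`, defined on a downward closed set `S` of nodes of arbitrarily large
countable height: for `s` in `S` of limit height `α`, for all but finitely many `ξ` in `C α` the value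
of `φ` at the predecessor of `s` of height `ξ` is the colour `g α`. -/
def UnifTwo (T : Type) [PartialOrder T] [IsTree T] (C : Ordinal.{0} → Set Ordinal.{0}) : Prop :=
  ∀ g : Ordinal.{0} → Bool, ∃ (S : Set T) (φ : T → ℕ), IsTall Cardinal.aleph0 S ∧
    ∀ s ∈ S, Order.IsSuccLimit (ht s) →
      {ξ | ξ ∈ C (ht s) ∧ ¬ ∃ u < s, ht u = ξ ∧ φ u = (g (ht s)).toNat}.Finite

end Pool.Agent.Y128.WD
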