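import Pool.Agent.Y128.WD.DS
import Pool.Agent.Y128.WD.Defs

/-!
# Weak diamonds and uniformization of colourings along trees: proofs
-/

set_option autoImplicit false

open Set Function

namespace Pool.Agent.Y128.WD

/-! ### the order `W κ` -/

section Order

variable {κ : Cardinal.{0}}

theorem cof_W (hκ : Cardinal.aleph0 ≤ κ) : Order.cof (W κ) = Cardinal.lift.{1} (Order.succ κ) := by
  rw [Ordinal.cof_Iio, ← Ordinal.lift_cof, (Cardinal.isRegular_succ hκ).cof_ord]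

theorem aleph0_lt_cof (hκ : Cardinal.aleph0 ≤ κ) : Cardinal.aleph0.{1} < Order.cof (W κ) := by
  rw [cof_W hκ]
  exact Cardinal.aleph0_lt_lift.2 (hκ.trans_lt (Order.lt_succ κ))

theorem noMaxOrder (hκ : Cardinal.aleph0 ≤ κ) : NoMaxOrder (W κ) := by
  have h := Cardinal.isSuccLimit_ord (hκ.trans (Order.le_succ κ))
  exact ⟨fun a => ⟨⟨Order.succ a.1, h.succ_lt a.2⟩, Order.lt_succ a.1⟩⟩

theorem nonempty_W (hκ : Cardinal.aleph0 ≤ κ) : Nonempty (W κ) := by
  have h := Cardinal.isSuccLimit_ord (hκ.trans (Order.le_succ κ))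
  exact ⟨⟨0, h.bot_lt⟩⟩

theorem card_le (δ : W κ) : δ.1.card ≤ κ := by
  have h : δ.1.card < Order.succ κ := Cardinal.lt_ord.1 δ.2
  exact Order.lt_succ_iff.1 h

theorem seg_embedding {K : Type} (hK : Cardinal.mk K = κ) (δ : W κ) :
    Nonempty ({β : W κ // β < δ} ↪ K) := by
  have h1 : Nonempty (Set.Iio δ.1 ↪ K) := by
    rw [← Cardinal.lift_mk_le', Cardinal.mk_Iio_ordinal, hK, Cardinal.lift_lift]
    exact Cardinal.lift_le.2 (card_le δ)
  obtain ⟨f⟩ := h1
  refine ⟨⟨fun β => f ⟨β.1.1, β.2⟩, fun β γ h => ?_⟩⟩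
  have h2 := f.injective h
  exact Subtype.ext (Subtype.ext (congrArg (fun x : Set.Iio δ.1 => x.1) h2))

theorem club_iInter (hκ : Cardinal.aleph0 ≤ κ) {K : Type} (hK : Cardinal.mk K = κ)
    (f : K → Set (W κ)) (hf : ∀ i, IsClub (f i)) : IsClub (⋂ i, f i) := by
  refine IsClub.iInter (aleph0_lt_cof hκ).ne' ?_ hf
  rw [cof_W hκ, hK]
  simp

theorem w_embedding {K : Type} (hK : Cardinal.mk K = κ) : Nonempty (W κ ↪ (K → Bool)) := by
  have hBK : Cardinal.mk (K → Bool) = 2 ^ κ := by simp [hK]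
  rw [← Cardinal.lift_mk_le', Cardinal.mk_Iio_ordinal, hBK, Cardinal.card_ord,
    Cardinal.lift_lift]
  exact Cardinal.lift_le.2 (Order.succ_le_of_lt (Cardinal.cantor κ))

theorem no_embedding {K : Type} (hK : Cardinal.mk K = κ)
    (h2 : (2 : Cardinal.{0}) ^ κ < 2 ^ (Order.succ κ)) :
    IsEmpty ((W κ → Bool) ↪ (K → Bool)) := by
  have hBK : Cardinal.mk (K → Bool) = 2 ^ κ := by simp [hK]
  refine ⟨fun f => ?_⟩
  have h3 := Cardinal.lift_mk_le'.2 ⟨f⟩
  have h4 : Cardinal.mk (W κ → Bool) = Cardinal.lift.{1} (2 ^ (Order.succ κ)) := by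
    rw [Cardinal.mk_arrow, Cardinal.mk_Iio_ordinal, Cardinal.card_ord]
    simp
  rw [h4, hBK, Cardinal.lift_lift] at h3
  exact absurd h2 (not_lt.2 (Cardinal.lift_le.1 h3))

/-- **Devlin and Shelah**: the weak diamond at `κ⁺`. -/
theorem weakDiamond_univ (hκ : Cardinal.aleph0 ≤ κ)
    (h2 : (2 : Cardinal.{0}) ^ κ < 2 ^ (Order.succ κ)) : WeakDiamond κ Set.univ := by
  intro V hV F
  obtain ⟨K, hK⟩ : ∃ K : Type, Cardinal.mk K = κ := ⟨κ.out, Cardinal.mk_out κ⟩
  have : Infinite K := Cardinal.infinite_iff.2 (by rw [hK]; exact hκ)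
  have := noMaxOrder hκ
  have := nonempty_W hκ
  have hBK : Cardinal.mk (K → Bool) = 2 ^ κ := by simp [hK]
  let e0 : ∀ δ : W κ, {β : W κ // β < δ} ↪ K := fun δ => (seg_embedding hK δ).some
  obtain ⟨a⟩ := w_embedding hK
  have hv : Nonempty (V ↪ (K → Bool)) := by
    rw [← Cardinal.le_def, hBK]
    exact hV
  obtain ⟨v⟩ := hv
  have hF : ∀ (δ : W κ) (h h' : W κ → V), (∀ x, x < δ → h x = h' x) →
      (!F δ (fun β => h β.1)) = (!F δ (fun β => h' β.1)) := by
    intro δ h h' hh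
    have : (fun β : {β : W κ // β < δ} => h β.1) = fun β => h' β.1 := by
      funext β
      exact hh β.1 β.2
    rw [this]
  obtain ⟨g, hg⟩ := weak_diamond (aleph0_lt_cof hκ) (club_iInter hκ hK) e0 a v
    (no_embedding hK h2)
    (fun δ h => !F δ (fun β => h β.1)) hF
  refine ⟨g, fun h C hC => ?_⟩
  obtain ⟨δ, hδ, hne⟩ := hg h C hC
  have key : ∀ x y : Bool, (!x) ≠ y → x = y := by decide
  exact ⟨δ, ⟨trivial, key _ _ hne⟩, hδ⟩

/-- The weak diamond passes to the intersection with a club. -/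
theorem weakDiamond_club (hκ : Cardinal.aleph0 ≤ κ) {E C : Set (W κ)} (hE : WeakDiamond κ E)
    (hC : IsClub C) : WeakDiamond κ (E ∩ C) := by
  intro V hV F
  obtain ⟨g, hg⟩ := hE V hV F
  refine ⟨g, fun h C' hC' => ?_⟩
  obtain ⟨δ, h1, h2⟩ := hg h (hC.inter (aleph0_lt_cof hκ).ne' hC')
  exact ⟨δ, ⟨⟨h1.1, h2.1⟩, h1.2⟩, h2.2⟩

theorem isClub_limits (hκ : Cardinal.aleph0 ≤ κ) :
    IsClub {δ : W κ | Order.IsSuccLimit δ.1} := by
  constructor
  · intro d hd hne _ a ha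
    show Order.IsSuccLimit a.1
    rw [Ordinal.isSuccLimit_iff]
    obtain ⟨c, hc⟩ := hne
    have hc1 : Order.IsSuccLimit c.1 := hd hc
    have hca : c ≤ a := ha.1 hc
    constructor
    · intro h0
      have h1 : c.1 ≤ a.1 := hca
      rw [h0] at h1
      have h2 : c.1 = 0 := by simpa using h1
      exact (Ordinal.isSuccLimit_iff.1 hc1).1 h2
    · rw [Order.isSuccPrelimit_iff_succ_lt]
      intro b hb
      have hbw : b < (Order.succ κ).ord := hb.trans a.2
      have hnot : ¬ (∀ x ∈ d, x ≤ (⟨b, hbw⟩ : W κ)) := by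
        intro hall
        have : a ≤ (⟨b, hbw⟩ : W κ) := ha.2 hall
        exact absurd hb (not_lt.2 this)
      push Not at hnot
      obtain ⟨x, hx, hbx⟩ := hnot
      have hx1 : Order.IsSuccLimit x.1 := hd hx
      have hxa : x.1 ≤ a.1 := ha.1 hx
      have hbx' : b < x.1 := hbx
      exact (hx1.succ_lt hbx').trans_le hxa
  · intro δ
    have h1 : δ.1 + Ordinal.omega0 < (Order.succ κ).ord := by
      rw [Cardinal.lt_ord, Ordinal.card_add, Ordinal.card_omega0]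
      refine Cardinal.add_lt_of_lt (hκ.trans (Order.le_succ κ)) (Cardinal.lt_ord.1 δ.2) ?_
      exact hκ.trans_lt (Order.lt_succ κ)
    refine ⟨⟨δ.1 + Ordinal.omega0, h1⟩, ?_, ?_⟩
    · exact Ordinal.isSuccLimit_add δ.1 Ordinal.isSuccLimit_omega0
    · show δ.1 ≤ δ.1 + Ordinal.omega0
      exact le_self_add

end Order

/-! ### trees -/

section Tree

variable {T : Type} [PartialOrder T] [IsTree T]

theorem typein_eq_ht {u t : T} (h : u < t) :
    Ordinal.typein (α := Set.Iio t) (· < ·) ⟨u, h⟩ = ht u := by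
  rw [← Ordinal.type_subrel]
  unfold ht
  refine RelIso.ordinalType_congr ?_
  refine ⟨⟨fun x => ⟨x.1.1, x.2⟩, fun y => ⟨⟨y.1, lt_trans y.2 h⟩, y.2⟩, ?_, ?_⟩, ?_⟩
  · intro x; rfl
  · intro y; rfl
  · intro x y; rfl

theorem ht_lt {u t : T} (h : u < t) : ht u < ht t := by
  rw [← typein_eq_ht h]
  exact Ordinal.typein_lt_type (α := Set.Iio t) (· < ·) ⟨u, h⟩

theorem exists_ht {t : T} {δ : Ordinal.{0}} (h : δ < ht t) : ∃ u < t, ht u = δ := by
  obtain ⟨x, hx⟩ := Ordinal.typein_surj (α := Set.Iio t) (· < ·) h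
  refine ⟨x.1, x.2, ?_⟩
  rw [← typein_eq_ht (u := x.1) (t := t) x.2]
  exact hx

theorem exists_ht_le {t : T} {δ : Ordinal.{0}} (h : δ ≤ ht t) : ∃ u ≤ t, ht u = δ := by
  rcases h.lt_or_eq with h | h
  · obtain ⟨u, hu, h1⟩ := exists_ht h
    exact ⟨u, hu.le, h1⟩
  · exact ⟨t, le_rfl, h.symm⟩

theorem eq_of_ht {u v s : T} (hu : u < s) (hv : v < s) (h : ht u = ht v) : u = v := by
  rw [← typein_eq_ht hu, ← typein_eq_ht hv] at h
  exact congrArg Subtype.val (Ordinal.typein_injective (α := Set.Iio s) (· < ·) h)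

end Tree

variable {κ : Cardinal.{0}}

theorem mk_fun_le (hκ : Cardinal.aleph0 ≤ κ) {K V : Type} (hK : Cardinal.mk K = κ)
    (hV : Cardinal.mk V ≤ 2 ^ κ) : Cardinal.mk (K → Option V) ≤ 2 ^ κ := by
  have h4 : Cardinal.aleph0.{0} ≤ 2 ^ κ := hκ.trans (Cardinal.cantor _).le
  rw [Cardinal.mk_pi, Cardinal.prod_const', hK, Cardinal.mk_option]
  calc (Cardinal.mk V + 1) ^ κ ≤ (2 ^ κ + 2 ^ κ) ^ κ :=
        Cardinal.power_le_power_right (add_le_add hV (Cardinal.one_le_aleph0.trans h4))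
    _ = (2 ^ κ) ^ κ := by rw [Cardinal.add_eq_self h4]
    _ = 2 ^ κ := by rw [← Cardinal.power_mul, Cardinal.mul_eq_self hκ]

/-- **Main theorem.** If the weak diamond holds for `E` and colourings of `E` can be uniformized
along `T` then `T` has an antichain with stationarily many heights in `E`. -/
theorem antichain_of_weakDiamond (hκ : Cardinal.aleph0 ≤ κ) {E : Set (W κ)}
    (hE : WeakDiamond κ E) {T : Type} [PartialOrder T] [IsTree T] (hT : LevelsLE κ T) {V : Type}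
    (hV : Cardinal.mk V ≤ 2 ^ κ) {D : (s : T) → ({u : T // u < s} → V) → Bool}
    (hU : Uniformizable κ E T V D) : HasStationaryAntichain κ E T := by
  classical
  have := noMaxOrder hκ
  have := nonempty_W hκ
  obtain ⟨K, hK⟩ : ∃ K : Type, Cardinal.mk K = κ := ⟨κ.out, Cardinal.mk_out κ⟩
  obtain ⟨t0, v0⟩ : Nonempty T ∧ Nonempty V := by
    obtain ⟨S, φ, hS, -⟩ := hU (fun _ => true)
    obtain ⟨t, -, -⟩ := hS.tall (Classical.arbitrary _)
    exact ⟨⟨t⟩, ⟨φ t⟩⟩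
  obtain ⟨v0⟩ := v0
  have hlev : ∀ α : Ordinal.{0}, Nonempty ({t : T // ht t = α} ↪ K) := fun α => by
    rw [← Cardinal.le_def, hK]
    exact hT α
  let e : ∀ α : Ordinal.{0}, {t : T // ht t = α} ↪ K := fun α => (hlev α).some
  let code : T → K := fun t => e (ht t) ⟨t, rfl⟩
  have hcode : ∀ t t' : T, ht t = ht t' → code t = code t' → t = t' := by
    intro t t' h1 h2
    have h3 : ∀ (α : Ordinal.{0}) (h : ht t' = α), e (ht t') ⟨t', rfl⟩ = e α ⟨t', h⟩ := by
      rintro _ rfl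
      rfl
    have h4 : e (ht t) ⟨t, rfl⟩ = e (ht t) ⟨t', h1.symm⟩ := by
      rw [← h3 (ht t) h1.symm]
      exact h2
    exact congrArg Subtype.val ((e (ht t)).injective h4)
  let G : (δ : W κ) → ({β : W κ // β < δ} → K → Option V) → T → Option V := fun δ H t =>
    if h : ht t < δ.1 then H ⟨⟨ht t, lt_trans h δ.2⟩, h⟩ (code t) else none
  let good : (δ : W κ) → ({β : W κ // β < δ} → K → Option V) → T → Prop := fun δ H s =>
    ht s = δ.1 ∧ ∀ u < s, (G δ H u).isSome = true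
  let pick : (δ : W κ) → ({β : W κ // β < δ} → K → Option V) → T := fun δ H =>
    Classical.epsilon (good δ H)
  let F : (δ : W κ) → ({β : W κ // β < δ} → K → Option V) → Bool := fun δ H =>
    !D (pick δ H) (fun u => (G δ H u.1).getD v0)
  obtain ⟨g, hg⟩ := hE (K → Option V) (mk_fun_le hκ hK hV) F
  obtain ⟨S, φ, hS, hbad⟩ := hU g
  rw [not_isStationary_iff] at hbad
  obtain ⟨C0, hC0, hdisj⟩ := hbad
  let h : W κ → K → Option V := fun β k =>
    if hh : ∃ t : T, t ∈ S ∧ ht t = β.1 ∧ code t = k then some (φ hh.choose) else none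
  have hG : ∀ (δ : W κ) (t : T), ht t < δ.1 →
      G δ (fun β => h β.1) t = if t ∈ S then some (φ t) else none := by
    intro δ t ht1
    show (if h' : ht t < δ.1 then h ⟨ht t, lt_trans h' δ.2⟩ (code t) else none) = _
    rw [dif_pos ht1]
    show (if hh : ∃ t' : T, t' ∈ S ∧ ht t' = ht t ∧ code t' = code t then some (φ hh.choose)
      else none) = _
    by_cases htS : t ∈ S
    · have hh : ∃ t' : T, t' ∈ S ∧ ht t' = ht t ∧ code t' = code t := ⟨t, htS, rfl, rfl⟩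
      rw [dif_pos hh, if_pos htS]
      have h5 := hh.choose_spec
      rw [hcode _ _ h5.2.1 h5.2.2]
    · have hh : ¬ ∃ t' : T, t' ∈ S ∧ ht t' = ht t ∧ code t' = code t := by
        rintro ⟨t', h1, h2, h3⟩
        exact htS (hcode _ _ h2 h3 ▸ h1)
      rw [dif_neg hh, if_neg htS]
  refine ⟨{t | t ∉ S ∧ ∀ u < t, u ∈ S}, ?_, ?_⟩
  · intro a ha b hb hne hle
    exact ha.1 (hb.2 a (lt_of_le_of_ne hle hne))
  · intro C hC
    obtain ⟨δ, ⟨hδE, hδg⟩, hδC⟩ := hg h (hC.inter (aleph0_lt_cof hκ).ne' hC0)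
    refine ⟨δ, ⟨hδE, ?_⟩, hδC.1⟩
    have hex : ∃ s, good δ (fun β => h β.1) s := by
      obtain ⟨t, htS, hδt⟩ := hS.tall δ
      obtain ⟨s, hst, hs⟩ := exists_ht_le hδt
      refine ⟨s, hs, fun u hu => ?_⟩
      rw [hG δ u (hs ▸ ht_lt hu), if_pos (hS.lower t htS u (hu.le.trans hst))]
      rfl
    have hp : good δ (fun β => h β.1) (pick δ (fun β => h β.1)) := Classical.epsilon_spec hex
    obtain ⟨p, hpdef⟩ : ∃ p, p = pick δ (fun β => h β.1) := ⟨_, rfl⟩
    rw [← hpdef] at hp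
    have hpS : ∀ u < p, u ∈ S := by
      intro u hu
      have h6 := hp.2 u hu
      rw [hG δ u (hp.1 ▸ ht_lt hu)] at h6
      by_contra hc
      rw [if_neg hc] at h6
      simp at h6
    refine ⟨p, ⟨fun hpS' => ?_, hpS⟩, hp.1⟩
    have h7 : ¬ (δ ∈ E ∧ ∃ s ∈ S, ht s = δ.1 ∧ D s (fun u => φ u.1) ≠ g δ) := fun hc =>
      (Set.disjoint_left.1 hdisj) hc hδC.2
    have h8 : D p (fun u => φ u.1) = g δ := by
      by_contra hc
      exact h7 ⟨hδE, p, hpS', hp.1, hc⟩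
    have h9 : F δ (fun β => h β.1) = !D p (fun u => φ u.1) := by
      show (!D (pick δ (fun β => h β.1)) (fun u => (G δ (fun β => h β.1) u.1).getD v0)) = _
      rw [← hpdef]
      have : (fun u : {u : T // u < p} => (G δ (fun β => h β.1) u.1).getD v0) =
          fun u => φ u.1 := by
        funext u
        rw [hG δ u.1 (hp.1 ▸ ht_lt u.2), if_pos (hpS u.1 u.2)]
        rfl
      rw [this]
    rw [h9, h8] at hδg
    cases h10 : g δ <;> simp [h10] at hδg

/-- A uniformization modulo proper filters is a uniformization for a rule. -/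
theorem uniformizable_of_mod {E : Set (W κ)} {T : Type} [PartialOrder T] [IsTree T] {V : Type}
    {c : Bool → V} (hc : c false ≠ c true) {𝓕 : W κ → Filter Ordinal.{0}}
    (h𝓕 : ∀ δ ∈ E, (𝓕 δ).NeBot) (hU : UniformizableMod κ E T V c 𝓕) :
    ∃ D : (s : T) → ({u : T // u < s} → V) → Bool, Uniformizable κ E T V D := by
  classical
  refine ⟨fun s φ => if h : ht s < (Order.succ κ).ord then
    decide (∀ᶠ ξ in 𝓕 ⟨ht s, h⟩, ∃ u : {u : T // u < s}, ht u.1 = ξ ∧ φ u = c true) else false,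
    fun g => ?_⟩
  obtain ⟨S, φ, hS, hns⟩ := hU g
  refine ⟨S, φ, hS, fun hst => hns (hst.mono ?_)⟩
  rintro δ ⟨hδE, s, hsS, hs, hne⟩
  refine ⟨hδE, s, hsS, hs, fun hev => hne ?_⟩
  have h1 : ht s < (Order.succ κ).ord := hs ▸ δ.2
  have h2 : (⟨ht s, h1⟩ : W κ) = δ := Subtype.ext hs
  beta_reduce
  rw [dif_pos h1, h2]
  cases hg : g δ
  · rw [decide_eq_false_iff_not]
    intro hev2
    rw [hg] at hev
    have := h𝓕 δ hδE
    obtain ⟨ξ, ⟨u, hu, hu1, hu2⟩, ⟨v, hv1, hv2⟩⟩ := (hev.and hev2).exists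
    have huv : u = v.1 := eq_of_ht hu v.2 (hu1.trans hv1.symm)
    apply hc
    rw [← hu2, ← hv2, huv]
  · rw [decide_eq_true_iff]
    rw [hg] at hev
    exact hev.mono (fun ξ ⟨u, hu, hu1, hu2⟩ => ⟨⟨u, hu⟩, hu1, hu2⟩)

end Pool.Agent.Y128.WD
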