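import Pool.Agent.Y128.WD.Main

/-!
# Weak diamonds and uniformization of colourings along trees: sharpness and ladder systems
-/

set_option autoImplicit false

open Set Function

namespace Pool.Agent.Y128.WD

variable {κ : Cardinal.{0}}

theorem isClub_Ioi (hκ : Cardinal.aleph0 ≤ κ) (δ : W κ) : IsClub (Set.Ioi δ) := by
  have := noMaxOrder hκ
  constructor
  · intro d hd hne _ a ha
    obtain ⟨c, hc⟩ := hne
    exact (show δ < c from hd hc).trans_le (ha.1 hc)
  · intro β
    obtain ⟨γ, hγ⟩ := exists_gt (max β δ)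
    exact ⟨γ, (le_max_right β δ).trans_lt hγ, ((le_max_left β δ).trans_lt hγ).le⟩

/-- the order `κ⁺` as a tree without branching -/
instance instTree : IsTree (Order.succ κ).ord.ToType := ⟨fun _ => inferInstance⟩

theorem ht_toType (t : (Order.succ κ).ord.ToType) : ht t = (Ordinal.ToType.mk.symm t).1 := rfl

/-- The weak diamond is necessary. -/
theorem weakDiamond_of_trees (hκ : Cardinal.aleph0 ≤ κ) {E : Set (W κ)}
    (h : ∀ (T : Type) [PartialOrder T] [IsTree T], LevelsLE κ T → ∀ V : Type,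
      Cardinal.mk V ≤ 2 ^ κ → ∀ D : (s : T) → ({u : T // u < s} → V) → Bool,
        Uniformizable κ E T V D → HasStationaryAntichain κ E T) : WeakDiamond κ E := by
  intro V hV F
  by_contra hcon
  push Not at hcon
  let T := (Order.succ κ).ord.ToType
  have hlt : ∀ (s : T) (β : {β : W κ // β < Ordinal.ToType.mk.symm s}),
      Ordinal.ToType.mk β.1 < s := by
    intro s β
    have := (Ordinal.ToType.mk (o := (Order.succ κ).ord)).lt_iff_lt.2 β.2
    rwa [OrderIso.apply_symm_apply] at this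
  have hinj : ∀ a b : T, ht a = ht b → a = b := by
    intro a b hab
    rw [ht_toType, ht_toType] at hab
    exact (Ordinal.ToType.mk (o := (Order.succ κ).ord)).symm.injective (Subtype.ext hab)
  have hlev : LevelsLE κ T := by
    intro α
    have : Subsingleton {t : T // ht t = α} :=
      ⟨fun a b => Subtype.ext (hinj _ _ (a.2.trans b.2.symm))⟩
    exact (Cardinal.le_one_iff_subsingleton.2 this).trans (Cardinal.one_le_aleph0.trans hκ)
  have hU : Uniformizable κ E T V
      (fun s φ => !F (Ordinal.ToType.mk.symm s) (fun β => φ ⟨Ordinal.ToType.mk β.1, hlt s β⟩)) := by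
    intro g
    obtain ⟨f, hf⟩ := hcon g
    refine ⟨Set.univ, fun t => f (Ordinal.ToType.mk.symm t),
      ⟨fun _ _ _ _ => trivial, fun β => ⟨Ordinal.ToType.mk β, trivial, ?_⟩⟩, ?_⟩
    · rw [ht_toType, OrderIso.symm_apply_apply]
    · intro hst
      refine hf (hst.mono ?_)
      rintro δ ⟨hδ, s, -, hs, hne⟩
      refine ⟨hδ, ?_⟩
      have e1 : Ordinal.ToType.mk.symm s = δ := Subtype.ext hs
      subst e1
      have key : ∀ x y : Bool, (!x) ≠ y → x = y := by decide
      have h2 := key _ _ hne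
      rw [← h2]
      congr 1
      funext β
      show f β.1 = f (Ordinal.ToType.mk.symm (Ordinal.ToType.mk β.1))
      rw [OrderIso.symm_apply_apply]
  obtain ⟨A, hA, hst⟩ := h T hlev V hV _ hU
  obtain ⟨δ, hδE, a, haA, ha⟩ := hst.nonempty
  obtain ⟨δ', ⟨_, b, hbA, hb⟩, hlt'⟩ := hst (isClub_Ioi hκ δ)
  have hab : a = b := by
    by_contra hne
    rcases le_total a b with hle | hle
    · exact hA haA hbA hne hle
    · exact hA hbA haA (Ne.symm hne) hle
  have : δ = δ' := Subtype.ext (by rw [← ha, ← hb, hab])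
  rw [← this] at hlt'
  exact lt_irrefl δ hlt'

/-- **All successor cardinals, all filters.** -/
theorem antichain_of_mod (hκ : Cardinal.aleph0 ≤ κ) {E : Set (W κ)} (hE : WeakDiamond κ E)
    {T : Type} [PartialOrder T] [IsTree T] (hT : LevelsLE κ T) {V : Type}
    (hV : Cardinal.mk V ≤ 2 ^ κ) {c : Bool → V} (hc : c false ≠ c true)
    {𝓕 : W κ → Filter Ordinal.{0}} (h𝓕 : ∀ δ ∈ E, (𝓕 δ).NeBot)
    (hU : UniformizableMod κ E T V c 𝓕) : HasStationaryAntichain κ E T := by
  obtain ⟨D, hD⟩ := uniformizable_of_mod hc h𝓕 hU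
  exact antichain_of_weakDiamond hκ hE hT hV hD

theorem weakDiamond_limits (hκ : Cardinal.aleph0 ≤ κ)
    (h2 : (2 : Cardinal.{0}) ^ κ < 2 ^ (Order.succ κ)) : WeakDiamond κ (limits κ) := by
  have h := weakDiamond_club hκ (weakDiamond_univ hκ h2) (isClub_limits hκ)
  rwa [Set.univ_inter] at h

/-- **Ladder systems on `ω₁`.** -/
theorem antichain_of_ladder (h2 : (2 : Cardinal.{0}) ^ Cardinal.aleph0.{0} <
      2 ^ (Order.succ Cardinal.aleph0.{0}))
    {T : Type} [PartialOrder T] [IsTree T] (hT : LevelsLE Cardinal.aleph0 T)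
    {C : Ordinal.{0} → Set Ordinal.{0}} (hC : IsLadderSystem C) (hU : UnifTwo T C) :
    HasStationaryAntichain Cardinal.aleph0 Set.univ T := by
  classical
  have hinf : ∀ δ ∈ limits Cardinal.aleph0, (C δ.1).Infinite := by
    intro δ hδ
    obtain ⟨e, he1, he2, -⟩ := hC δ.1 δ.2 hδ
    rw [← he2]
    exact Set.infinite_range_of_injective he1.injective
  have hmod : UniformizableMod Cardinal.aleph0 (limits Cardinal.aleph0) T ℕ Bool.toNat
      (fun δ => Filter.cofinite ⊓ Filter.principal (C δ.1)) := by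
    intro g
    obtain ⟨S, φ, hS, hφ⟩ := hU (fun α => if h : α < (Order.succ Cardinal.aleph0.{0}).ord then
      g ⟨α, h⟩ else false)
    refine ⟨S, φ, hS, fun hst => ?_⟩
    obtain ⟨δ, hδ, s, hsS, hs, hne⟩ := hst.nonempty
    apply hne
    have hfin := hφ s hsS (by rw [hs]; exact hδ)
    have h3 : δ.1 < (Order.succ Cardinal.aleph0.{0}).ord := δ.2
    rw [hs, dif_pos h3] at hfin
    rw [Filter.eventually_inf_principal, Filter.eventually_cofinite]
    refine hfin.subset ?_
    intro ξ hξ
    have hξ' : ¬ (ξ ∈ C δ.1 → ∃ u < s, ht u = ξ ∧ φ u = (g δ).toNat) := hξ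
    rw [Classical.not_imp] at hξ'
    exact hξ'
  obtain ⟨A, hA, hst⟩ := antichain_of_mod le_rfl (weakDiamond_limits le_rfl h2) hT
    (by
      rw [Cardinal.mk_nat]
      exact (Cardinal.cantor _).le) (c := Bool.toNat) (by decide)
    (fun δ hδ => by
      rw [Filter.cofinite_inf_principal_neBot_iff]
      exact hinf δ hδ) hmod
  exact ⟨A, hA, hst.mono (fun δ hδ => ⟨trivial, hδ.2⟩)⟩

end Pool.Agent.Y128.WD
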